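import Mathlib

/-!
# MP_1f0dde_co: a finite two-dimensional subtraction ruleset that is not eventually periodic

Positions are lattice points of the quadrant; blocks are `20 × 20` squares.  Eleven residue
classes modulo `20` are special: five of them are always `P`, six of them carry the
values of a small circuit of NOR gates, and all other classes are always `N`.  The circuit computes
`t (i, j) = [i = j = 0] + t (i - 1, j - 1) + t (i - 2, j - 1) mod 2`, i.e. the coefficients of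
`(x + x²)^j` mod 2.  On the line `y = 3 x / 4 + 17 / 4` it shows the parity of `choose (3 n) n`.
-/

set_option linter.unusedSimpArgs false

namespace Pool.Agent.Results.MP_1f0dde_co.NotEventuallyPeriodic

/-- The position `p` is a `P`-position (the player to move loses) of the subtraction game `S`:
every available option `p - s` is not a `P`-position. -/
def IsP (S : Finset (ℕ × ℕ)) (p : ℕ × ℕ) : Prop :=
  ∀ s ∈ S, s ≠ (0, 0) → s.1 ≤ p.1 → s.2 ≤ p.2 → ¬ IsP S (p.1 - s.1, p.2 - s.2)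
termination_by p.1 + p.2
decreasing_by
  rename_i h0 h1 h2
  have : s.1 ≠ 0 ∨ s.2 ≠ 0 := by
    by_contra hcon
    push Not at hcon
    exact h0 (Prod.ext hcon.1 hcon.2)
  omega

/-- The line `x ↦ p x / q + m`. -/
def lineF (p q : ℕ) (m : ℚ) (x : ℤ) : ℚ := (p : ℚ) * x / q + m

/-- The outcomes on the line `y = p x / q + m` are eventually periodic. -/
def EventuallyPeriodicOn (S : Finset (ℕ × ℕ)) (p q : ℕ) (m : ℚ) : Prop :=
  ∃ T x' : ℕ, 0 < T ∧
    (∀ x : ℤ, (∃ k : ℤ, lineF p q m x = k) → ∃ k : ℤ, lineF p q m (x + T) = k) ∧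
    ∀ x : ℕ, x' ≤ x → ∀ y y' : ℕ, lineF p q m x = y → lineF p q m ((x + T : ℕ) : ℤ) = y' →
      (IsP S (x, y) ↔ IsP S (x + T, y'))

/-- The ruleset `S` is eventually periodic: on every line `y = p x / q + m` with `p, q > 0` and
`m` rational which contains infinitely many lattice points, the outcomes are eventually
periodic. -/
def EventuallyPeriodic (S : Finset (ℕ × ℕ)) : Prop :=
  ∀ p q : ℕ, 0 < p → 0 < q → ∀ m : ℚ,
    {z : ℤ × ℤ | lineF p q m z.1 = z.2}.Infinite → EventuallyPeriodicOn S p q m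

/-! ## The arithmetic part -/

/-- the parity of `choose (3 n) n` -/
def c (n : ℕ) : ℕ := Nat.choose (3 * n) n % 2

lemma c_double (n : ℕ) : c (2 * n) = c n := by
  have h := Choose.choose_modEq_choose_mod_mul_choose_div_nat (p := 2) (n := 3 * (2 * n))
    (k := 2 * n)
  have e1 : 3 * (2 * n) % 2 = 0 := by omega
  have e2 : 2 * n % 2 = 0 := by omega
  have e3 : 3 * (2 * n) / 2 = 3 * n := by omega
  have e4 : 2 * n / 2 = n := by omega
  rw [e1, e2, e3, e4] at h
  simpa [c, Nat.ModEq] using h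

lemma c_pow (k n : ℕ) : c (2 ^ k * n) = c n := by
  induction k with
  | zero => simp
  | succ k ih =>
    rw [pow_succ', mul_assoc, c_double, ih]

lemma c_three (n : ℕ) : c (4 * n + 3) = 0 := by
  have h := Choose.choose_modEq_choose_mod_mul_choose_div_nat (p := 2) (n := 3 * (4 * n + 3))
    (k := 4 * n + 3)
  have h' := Choose.choose_modEq_choose_mod_mul_choose_div_nat (p := 2) (n := 6 * n + 4)
    (k := 2 * n + 1)
  have e1 : 3 * (4 * n + 3) % 2 = 1 := by omega
  have e2 : (4 * n + 3) % 2 = 1 := by omega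
  have e3 : 3 * (4 * n + 3) / 2 = 6 * n + 4 := by omega
  have e4 : (4 * n + 3) / 2 = 2 * n + 1 := by omega
  have f1 : (6 * n + 4) % 2 = 0 := by omega
  have f2 : (2 * n + 1) % 2 = 1 := by omega
  rw [e1, e2, e3, e4] at h
  rw [f1, f2] at h'
  simp only [Nat.choose_self, one_mul] at h
  simp only [Nat.choose_zero_succ, zero_mul] at h'
  have := h.trans h'
  simpa [c, Nat.ModEq] using this

lemma c_not_periodic (T N : ℕ) (hT : 0 < T) (h : ∀ n, N ≤ n → c n = c (n + T)) : False := by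
  have hit : ∀ k n, N ≤ n → c n = c (n + k * T) := by
    intro k
    induction k with
    | zero => intro n _; simp
    | succ k ih =>
      intro n hn
      rw [ih n hn, h (n + k * T) (by omega)]
      congr 1
      ring
  obtain ⟨v, u, hu, hTu⟩ : ∃ v u : ℕ, u % 2 = 1 ∧ T = 2 ^ v * u := by
    obtain ⟨v, u, hu, hT'⟩ := Nat.exists_eq_two_pow_mul_odd (n := T) (by omega)
    exact ⟨v, u, Nat.odd_iff.mp hu, hT'⟩
  obtain ⟨w, hw⟩ : ∃ w, u = 2 * w + 1 := ⟨u / 2, by omega⟩
  have h1 := hit (3 * u) (2 ^ (v + 2 + N)) (by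
    have := Nat.lt_two_pow_self (n := v + 2 + N)
    omega)
  have e1 : 2 ^ (v + 2 + N) = 2 ^ (v + 2 + N) * 1 := by ring
  have e2 : 2 ^ (v + 2 + N) + 3 * u * T = 2 ^ v * (4 * (2 ^ N + 3 * w ^ 2 + 3 * w) + 3) := by
    rw [hTu, hw]
    ring
  rw [e2, c_pow, c_three, e1, c_pow] at h1
  simp [c, Nat.choose] at h1

/-! ## The circuit -/

/-- The value carried by the class of `t` in the block `(i, j)`. -/
def tv (i j : ℕ) : Prop := j ≤ i ∧ Nat.choose j (i - j) % 2 = 1

def te (i j : ℕ) : Prop := 1 ≤ i ∧ 1 ≤ j ∧ tv (i - 1) (j - 1)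

def tf (i j : ℕ) : Prop := 2 ≤ i ∧ 1 ≤ j ∧ tv (i - 2) (j - 1)

lemma tv_zero (i : ℕ) : tv i 0 ↔ i = 0 := by
  unfold tv
  constructor
  · rintro ⟨_, h⟩
    by_contra hi
    obtain ⟨k, hk⟩ := Nat.exists_eq_succ_of_ne_zero hi
    subst hk
    simp at h
  · intro h; subst h; simp

lemma tv_rec (i j : ℕ) :
    tv i j ↔ (te i j ∨ tf i j ∨ (i = 0 ∧ j = 0)) ∧ ¬ (te i j ∧ tf i j) := by
  rcases Nat.eq_zero_or_pos j with hj | hj
  · subst hj
    rw [tv_zero]
    simp [te, tf]
  obtain ⟨k, rfl⟩ : ∃ k, j = k + 1 := ⟨j - 1, by omega⟩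
  unfold te tf tv
  rcases Nat.lt_trichotomy i (k + 1) with h | h | h
  · -- i ≤ k
    have : ¬ (k + 1 ≤ i) := by omega
    constructor
    · rintro ⟨h1, _⟩; omega
    · rintro ⟨h1 | h1 | h1, _⟩
      · have := h1.2.2.1; omega
      · have := h1.2.2.1; omega
      · omega
  · subst h
    have e1 : k + 1 - (k + 1) = 0 := by omega
    have e2 : k + 1 - 1 - (k + 1 - 1) = 0 := by omega
    simp only [e1, e2, Nat.choose_zero_right]
    constructor
    · intro _
      refine ⟨Or.inl ⟨by omega, by omega, le_refl _, by norm_num⟩, ?_⟩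
      rintro ⟨_, h2⟩
      have := h2.2.2.1
      omega
    · intro _
      exact ⟨le_refl _, by norm_num⟩
  · obtain ⟨d, rfl⟩ : ∃ d, i = k + 2 + d := ⟨i - (k + 2), by omega⟩
    have e1 : k + 2 + d - (k + 1) = d + 1 := by omega
    have e2 : k + 2 + d - 1 - (k + 1 - 1) = d + 1 := by omega
    have e3 : k + 2 + d - 2 - (k + 1 - 1) = d := by omega
    have e4 : k + 1 - 1 = k := by omega
    rw [e1, e2, e3, e4, Nat.choose_succ_succ']
    have a1 : k + 1 ≤ k + 2 + d := by omega
    have a2 : 1 ≤ k + 2 + d := by omega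
    have a3 : 1 ≤ k + 1 := by omega
    have a4 : k ≤ k + 2 + d - 1 := by omega
    have a5 : 2 ≤ k + 2 + d := by omega
    have a6 : k ≤ k + 2 + d - 2 := by omega
    have a7 : ¬ (k + 2 + d = 0) := by omega
    simp only [a1, a2, a3, a4, a5, a6, a7, true_and, false_and, or_false]
    rcases Nat.mod_two_eq_zero_or_one (k.choose d) with p | p <;>
    rcases Nat.mod_two_eq_zero_or_one (k.choose (d + 1)) with q | q <;>
    simp [Nat.add_mod, p, q]

/-! ## The ruleset -/

/-- the classes that are always `P` -/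
def Al : List (ℕ × ℕ) := [(0, 0), (1, 1), (3, 5), (4, 3), (10, 16)]

/-- the special classes -/
def Zl : List (ℕ × ℕ) :=
  [(0, 0), (1, 1), (3, 5), (4, 3), (10, 16), (8, 4), (13, 12), (6, 8), (2, 7), (15, 9), (17, 17)]

/-- is `(a, b)` a difference modulo `20` of two special classes? -/
def inF (a b : ℕ) : Bool :=
  Zl.any fun z => Zl.any fun z' => ((z.1 + 20 - z'.1) % 20 == a) && ((z.2 + 20 - z'.2) % 20 == b)

def S0 : Finset (ℕ × ℕ) := (Finset.range 20 ×ˢ Finset.range 20).filter (fun v => inF v.1 v.2 = false)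

/-- the wires, with their source class -/
def Wl : List ((ℕ × ℕ) × (ℕ × ℕ)) :=
  [((8, 4), (28, 4)), ((8, 4), (8, 24)),
   ((13, 12), (16, 15)), ((13, 12), (36, 15)), ((13, 12), (5, 8)),
   ((6, 8), (9, 11)), ((2, 7), (25, 10)),
   ((15, 9), (9, 1)), ((15, 9), (13, 2)),
   ((17, 17), (4, 5)), ((17, 17), (2, 8))]

def S : Finset (ℕ × ℕ) := S0 ∪ (Wl.map Prod.snd).toFinset

/-- the predicted outcome in class `(a, b)` of block `(i, j)` -/
def val (a b i j : ℕ) : Prop :=
  (a, b) ∈ Al ∨ ((a, b) = (8, 4) ∧ (i = 0 ∧ j = 0)) ∨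
  ((a, b) = (13, 12) ∧ (¬ te i j ∧ ¬ tf i j ∧ ¬ (i = 0 ∧ j = 0))) ∨
  ((a, b) = (6, 8) ∧ ¬ te i j) ∨ ((a, b) = (2, 7) ∧ ¬ tf i j) ∨
  ((a, b) = (15, 9) ∧ (te i j ∧ tf i j)) ∨ ((a, b) = (17, 17) ∧ tv i j)

def pred (x y : ℕ) : Prop := val (x % 20) (y % 20) (x / 20) (y / 20)

lemma val_not {a b i j : ℕ} (h : (a, b) ∉ Zl) : ¬ val a b i j := by
  intro hv
  apply h
  unfold val at hv
  rcases hv with hv | hv | hv | hv | hv | hv | hv
  · simp only [Al, Zl, List.mem_cons, List.not_mem_nil, or_false] at hv ⊢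
    tauto
  all_goals rw [hv.1]; simp [Zl]

lemma L1' : (List.range 20).all (fun a => (List.range 20).all fun b =>
    Zl.contains (a, b) || Al.any (fun z => decide (z.1 ≤ a) && decide (z.2 ≤ b) &&
      !inF (a - z.1) (b - z.2))) = true := by
  decide +kernel

lemma L1 {a b : ℕ} (ha : a < 20) (hb : b < 20) (h : (a, b) ∉ Zl) :
    ∃ z ∈ Al, z.1 ≤ a ∧ z.2 ≤ b ∧ inF (a - z.1) (b - z.2) = false := by
  have := L1'
  rw [List.all_eq_true] at this
  have h1 := this a (List.mem_range.mpr ha)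
  rw [List.all_eq_true] at h1
  have h2 := h1 b (List.mem_range.mpr hb)
  rw [Bool.or_eq_true] at h2
  rcases h2 with h2 | h2
  · exact absurd (by simpa using h2) h
  · rw [List.any_eq_true] at h2
    obtain ⟨z, hz, h3⟩ := h2
    refine ⟨z, hz, ?_⟩
    simpa [and_assoc] using h3

lemma L2 : ∀ z ∈ Zl, ∀ z' ∈ Zl, inF ((z.1 + 20 - z'.1) % 20) ((z.2 + 20 - z'.2) % 20) = true := by
  decide +kernel

lemma L3 : ∀ z ∈ Zl, ∀ w ∈ Wl, z ≠ w.1 →
    ((z.1 + 40 - w.2.1) % 20, (z.2 + 40 - w.2.2) % 20) ∉ Zl := by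
  decide +kernel

lemma Zl_lt : ∀ z ∈ Zl, z.1 < 20 ∧ z.2 < 20 := by decide +kernel

lemma Wl_lt : ∀ w ∈ Wl, w.2.1 < 40 ∧ w.2.2 < 40 ∧ w.2 ≠ (0, 0) := by decide +kernel

lemma zero_notMem : ((0, 0) : ℕ × ℕ) ∉ S := by
  decide +kernel

/-! ## The recursion for the predicted outcome -/

lemma wire_mem {w : (ℕ × ℕ) × (ℕ × ℕ)} (hw : w ∈ Wl) : w.2 ∈ S := by
  unfold S
  rw [Finset.mem_union]
  right
  rw [List.mem_toFinset, List.mem_map]
  exact ⟨w, hw, rfl⟩

lemma mem_S_iff {v : ℕ × ℕ} : v ∈ S ↔ v ∈ S0 ∨ ∃ w ∈ Wl, w.2 = v := by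
  unfold S
  rw [Finset.mem_union, List.mem_toFinset, List.mem_map]

/-- from a special class, the moves of `S0` lead to classes that are not special -/
lemma S0_move {x y : ℕ} (hz : (x % 20, y % 20) ∈ Zl) {v : ℕ × ℕ} (hv : v ∈ S0) (h1 : v.1 ≤ x)
    (h2 : v.2 ≤ y) : ¬ pred (x - v.1) (y - v.2) := by
  apply val_not
  intro hz'
  have h3 := L2 _ hz _ hz'
  unfold S0 at hv
  rw [Finset.mem_filter, Finset.mem_product, Finset.mem_range, Finset.mem_range] at hv
  obtain ⟨⟨h4, h5⟩, h6⟩ := hv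
  have e1 : (x % 20 + 20 - (x - v.1) % 20) % 20 = v.1 := by omega
  have e2 : (y % 20 + 20 - (y - v.2) % 20) % 20 = v.2 := by omega
  simp only [e1, e2] at h3
  rw [h3] at h6
  cases h6

/-- the wires that do not start at the class lead to classes that are not special -/
lemma wire_move {x y : ℕ} (hz : (x % 20, y % 20) ∈ Zl) {w : (ℕ × ℕ) × (ℕ × ℕ)} (hw : w ∈ Wl)
    (hne : (x % 20, y % 20) ≠ w.1) (h1 : w.2.1 ≤ x) (h2 : w.2.2 ≤ y) :
    ¬ pred (x - w.2.1) (y - w.2.2) := by
  apply val_not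
  have h3 := L3 _ hz _ hw hne
  have h4 := Wl_lt _ hw
  have e1 : (x % 20 + 40 - w.2.1) % 20 = (x - w.2.1) % 20 := by omega
  have e2 : (y % 20 + 40 - w.2.2) % 20 = (y - w.2.2) % 20 := by omega
  simp only [e1, e2] at h3
  exact h3

/-- For a special class only the wires that start there matter. -/
lemma special_iff {x y : ℕ} (hz : (x % 20, y % 20) ∈ Zl) :
    (∀ s ∈ S, s ≠ (0, 0) → s.1 ≤ x → s.2 ≤ y → ¬ pred (x - s.1) (y - s.2)) ↔
    ∀ w ∈ Wl, w.1 = (x % 20, y % 20) → w.2.1 ≤ x → w.2.2 ≤ y → ¬ pred (x - w.2.1) (y - w.2.2) := by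
  constructor
  · intro h w hw _ h1 h2
    exact h w.2 (wire_mem hw) (Wl_lt _ hw).2.2 h1 h2
  · intro h s hs _ h1 h2
    rw [mem_S_iff] at hs
    rcases hs with hs | ⟨w, hw, rfl⟩
    · exact S0_move hz hs h1 h2
    · by_cases hc : w.1 = (x % 20, y % 20)
      · exact h w hw hc h1 h2
      · exact wire_move hz hw (fun h' => hc h'.symm) h1 h2

lemma pred_at {a b : ℕ} (ha : a < 20) (hb : b < 20) (i j : ℕ) :
    pred (20 * i + a) (20 * j + b) ↔ val a b i j := by
  unfold pred
  have e1 : (20 * i + a) % 20 = a := by omega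
  have e2 : (20 * i + a) / 20 = i := by omega
  have e3 : (20 * j + b) % 20 = b := by omega
  have e4 : (20 * j + b) / 20 = j := by omega
  rw [e1, e2, e3, e4]

lemma special_at {a b : ℕ} (ha : a < 20) (hb : b < 20) (hz : (a, b) ∈ Zl) (i j : ℕ) :
    (∀ s ∈ S, s ≠ (0, 0) → s.1 ≤ 20 * i + a → s.2 ≤ 20 * j + b →
      ¬ pred (20 * i + a - s.1) (20 * j + b - s.2)) ↔
    ∀ w ∈ Wl, w.1 = (a, b) → w.2.1 ≤ 20 * i + a → w.2.2 ≤ 20 * j + b →
      ¬ pred (20 * i + a - w.2.1) (20 * j + b - w.2.2) := by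
  have e1 : (20 * i + a) % 20 = a := by omega
  have e3 : (20 * j + b) % 20 = b := by omega
  have := special_iff (x := 20 * i + a) (y := 20 * j + b) (by rw [e1, e3]; exact hz)
  rw [e1, e3] at this
  exact this

lemma val_A {a b i j : ℕ} (h : (a, b) ∈ Al) : val a b i j := Or.inl h

lemma opt {a b : ℕ} (a' b' k l w1 w2 : ℕ) (h1 : w1 + a' = 20 * k + a) (h2 : w2 + b' = 20 * l + b)
    (ha' : a' < 20) (hb' : b' < 20) (i j : ℕ) :
    (w1 ≤ 20 * i + a → w2 ≤ 20 * j + b → ¬ pred (20 * i + a - w1) (20 * j + b - w2)) ↔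
      (k ≤ i → l ≤ j → ¬ val a' b' (i - k) (j - l)) := by
  have hk : w1 ≤ 20 * i + a ↔ k ≤ i := by omega
  have hl : w2 ≤ 20 * j + b ↔ l ≤ j := by omega
  rw [hk, hl]
  refine forall_congr' fun h3 => forall_congr' fun h4 => ?_
  have e1 : 20 * i + a - w1 = 20 * (i - k) + a' := by omega
  have e2 : 20 * j + b - w2 = 20 * (j - l) + b' := by omega
  rw [e1, e2, pred_at ha' hb']

lemma pred_special (i j : ℕ) {a b : ℕ} (hz : (a, b) ∈ Zl) :
    val a b i j ↔
      ∀ w ∈ Wl, w.1 = (a, b) → w.2.1 ≤ 20 * i + a → w.2.2 ≤ 20 * j + b →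
        ¬ pred (20 * i + a - w.2.1) (20 * j + b - w.2.2) := by
  simp only [Zl, List.mem_cons, List.not_mem_nil, or_false, Prod.mk.injEq] at hz
  rcases hz with ⟨rfl, rfl⟩ | ⟨rfl, rfl⟩ | ⟨rfl, rfl⟩ | ⟨rfl, rfl⟩ | ⟨rfl, rfl⟩ | ⟨rfl, rfl⟩ |
    ⟨rfl, rfl⟩ | ⟨rfl, rfl⟩ | ⟨rfl, rfl⟩ | ⟨rfl, rfl⟩ | ⟨rfl, rfl⟩
  · simp [Wl, val, Al]
  · simp [Wl, val, Al]
  · simp [Wl, val, Al]
  · simp [Wl, val, Al]
  · simp [Wl, val, Al]
  · simp only [Wl, List.mem_cons, List.not_mem_nil, or_false, forall_eq_or_imp, forall_eq,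
      Prod.mk.injEq, Nat.reduceEqDiff, false_and, and_false, false_imp_iff, true_and, and_true,
      true_imp_iff, and_self]
    rw [opt 0 0 1 0 28 4 rfl rfl (by norm_num) (by norm_num),
      opt 0 0 0 1 8 24 rfl rfl (by norm_num) (by norm_num)]
    simp only [val, Al]
    simp
  · simp only [Wl, List.mem_cons, List.not_mem_nil, or_false, forall_eq_or_imp, forall_eq,
      Prod.mk.injEq, Nat.reduceEqDiff, false_and, and_false, false_imp_iff, true_and, and_true,
      true_imp_iff, and_self]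
    rw [opt 17 17 1 1 16 15 rfl rfl (by norm_num) (by norm_num),
      opt 17 17 2 1 36 15 rfl rfl (by norm_num) (by norm_num),
      opt 8 4 0 0 5 8 rfl rfl (by norm_num) (by norm_num)]
    simp only [val, Al, te, tf]
    simp
  · simp only [Wl, List.mem_cons, List.not_mem_nil, or_false, forall_eq_or_imp, forall_eq,
      Prod.mk.injEq, Nat.reduceEqDiff, false_and, and_false, false_imp_iff, true_and, and_true,
      true_imp_iff, and_self]
    rw [opt 17 17 1 1 9 11 rfl rfl (by norm_num) (by norm_num)]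
    simp only [val, Al, te, tf]
    simp
    
  · simp only [Wl, List.mem_cons, List.not_mem_nil, or_false, forall_eq_or_imp, forall_eq,
      Prod.mk.injEq, Nat.reduceEqDiff, false_and, and_false, false_imp_iff, true_and, and_true,
      true_imp_iff, and_self]
    rw [opt 17 17 2 1 25 10 rfl rfl (by norm_num) (by norm_num)]
    simp only [val, Al, te, tf]
    simp
  · simp only [Wl, List.mem_cons, List.not_mem_nil, or_false, forall_eq_or_imp, forall_eq,
      Prod.mk.injEq, Nat.reduceEqDiff, false_and, and_false, false_imp_iff, true_and, and_true,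
      true_imp_iff, and_self]
    rw [opt 6 8 0 0 9 1 rfl rfl (by norm_num) (by norm_num),
      opt 2 7 0 0 13 2 rfl rfl (by norm_num) (by norm_num)]
    simp only [val, Al]
    simp
  · simp only [Wl, List.mem_cons, List.not_mem_nil, or_false, forall_eq_or_imp, forall_eq,
      Prod.mk.injEq, Nat.reduceEqDiff, false_and, and_false, false_imp_iff, true_and, and_true,
      true_imp_iff, and_self]
    rw [opt 13 12 0 0 4 5 rfl rfl (by norm_num) (by norm_num),
      opt 15 9 0 0 2 8 rfl rfl (by norm_num) (by norm_num)]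
    have := tv_rec i j
    simp only [val, Al]
    simp
    tauto

theorem pred_iff (x y : ℕ) :
    pred x y ↔ ∀ s ∈ S, s ≠ (0, 0) → s.1 ≤ x → s.2 ≤ y → ¬ pred (x - s.1) (y - s.2) := by
  obtain ⟨i, a, ha, rfl⟩ : ∃ i a, a < 20 ∧ x = 20 * i + a :=
    ⟨x / 20, x % 20, Nat.mod_lt _ (by norm_num), by omega⟩
  obtain ⟨j, b, hb, rfl⟩ : ∃ j b, b < 20 ∧ y = 20 * j + b :=
    ⟨y / 20, y % 20, Nat.mod_lt _ (by norm_num), by omega⟩
  rw [pred_at ha hb]
  by_cases hz : (a, b) ∈ Zl
  · rw [special_at ha hb hz, pred_special i j hz]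
  · constructor
    · intro h
      exact absurd h (val_not hz)
    · intro h
      exfalso
      obtain ⟨z, hzA, h1, h2, h3⟩ := L1 ha hb hz
      have hzz : z ∈ Zl := by
        simp only [Al, Zl, List.mem_cons, List.not_mem_nil, or_false] at hzA ⊢
        tauto
      have hlt := Zl_lt z hzz
      have hne : (a - z.1, b - z.2) ≠ (0, 0) := by
        intro h0
        simp only [Prod.mk.injEq] at h0
        apply hz
        have : (a, b) = z := Prod.ext (by simp only; omega) (by simp only; omega)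
        rw [this]
        exact hzz
      have hS : (a - z.1, b - z.2) ∈ S := by
        rw [mem_S_iff]
        left
        unfold S0
        rw [Finset.mem_filter, Finset.mem_product, Finset.mem_range, Finset.mem_range]
        exact ⟨⟨by simp only; omega, by simp only; omega⟩, h3⟩
      refine h _ hS hne (by simp only; omega) (by simp only; omega) ?_
      have e1 : 20 * i + a - (a - z.1) = 20 * i + z.1 := by omega
      have e2 : 20 * j + b - (b - z.2) = 20 * j + z.2 := by omega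
      simp only [e1, e2]
      rw [pred_at hlt.1 hlt.2]
      exact val_A hzA

theorem isP_iff (n : ℕ) : ∀ x y : ℕ, x + y < n → (IsP S (x, y) ↔ pred x y) := by
  induction n with
  | zero => intro x y h; omega
  | succ n ih =>
    intro x y h
    rw [IsP, pred_iff]
    refine forall_congr' fun s => forall_congr' fun _ => forall_congr' fun h0 =>
      forall_congr' fun h1 => forall_congr' fun h2 => ?_
    have h3 : s.1 ≠ 0 ∨ s.2 ≠ 0 := by
      by_contra hcon
      push Not at hcon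
      exact h0 (Prod.ext hcon.1 hcon.2)
    simp only at h1 h2
    rw [ih (x - s.1) (y - s.2) (by omega)]

/-- The outcomes at the points `(17 + 80 n, 17 + 60 n)`. -/
theorem isP_line (n : ℕ) : IsP S (17 + 80 * n, 17 + 60 * n) ↔ c n = 1 := by
  rw [isP_iff (17 + 80 * n + (17 + 60 * n) + 1) _ _ (by omega)]
  have e1 : 17 + 80 * n = 20 * (4 * n) + 17 := by ring
  have e2 : 17 + 60 * n = 20 * (3 * n) + 17 := by ring
  rw [e1, e2, pred_at (by norm_num) (by norm_num)]
  have e3 : 4 * n - 3 * n = n := by omega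
  have e4 : 3 * n ≤ 4 * n := by omega
  simp [val, Al, tv, c, e3, e4]

lemma line_int (x : ℤ) (k : ℤ) (h : lineF 3 4 (17 / 4) x = k) : 4 * k = 3 * x + 17 := by
  unfold lineF at h
  have : (4 : ℚ) * k = 3 * x + 17 := by
    rw [← h]; push_cast; ring
  exact_mod_cast this

theorem not_periodic_line : ¬ EventuallyPeriodicOn S 3 4 (17 / 4) := by
  rintro ⟨T, x', hT, hint, hper⟩
  -- `4 ∣ T`
  obtain ⟨T', hT'⟩ : ∃ T', T = 4 * T' := by
    obtain ⟨k, hk⟩ := hint 17 ⟨17, by unfold lineF; norm_num⟩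
    have := line_int _ _ hk
    exact ⟨T / 4, by omega⟩
  subst hT'
  -- one step
  have step : ∀ n : ℕ, x' ≤ 17 + 4 * n →
      (IsP S (17 + 4 * n, 17 + 3 * n) ↔ IsP S (17 + 4 * (n + T'), 17 + 3 * (n + T'))) := by
    intro n hn
    have := hper (17 + 4 * n) hn (17 + 3 * n) (17 + 3 * (n + T'))
      (by unfold lineF; push_cast; ring) (by unfold lineF; push_cast; ring)
    rw [this]
    have e : 17 + 4 * n + 4 * T' = 17 + 4 * (n + T') := by ring
    rw [e]
  have steps : ∀ k n : ℕ, x' ≤ 17 + 4 * n →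
      (IsP S (17 + 4 * n, 17 + 3 * n) ↔
        IsP S (17 + 4 * (n + k * T'), 17 + 3 * (n + k * T'))) := by
    intro k
    induction k with
    | zero => intro n _; simp
    | succ k ih =>
      intro n hn
      rw [ih n hn, step (n + k * T') (by omega)]
      have e : n + k * T' + T' = n + (k + 1) * T' := by ring
      rw [e]
  apply c_not_periodic T' x' (by omega)
  intro n hn
  have h1 := steps 20 (20 * n) (by omega)
  have e1 : 17 + 4 * (20 * n) = 17 + 80 * n := by ring
  have e2 : 17 + 3 * (20 * n) = 17 + 60 * n := by ring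
  have e3 : 17 + 4 * (20 * n + 20 * T') = 17 + 80 * (n + T') := by ring
  have e4 : 17 + 3 * (20 * n + 20 * T') = 17 + 60 * (n + T') := by ring
  rw [e1, e2, e3, e4, isP_line, isP_line] at h1
  have a1 : c n < 2 := Nat.mod_lt _ (by norm_num)
  have a2 : c (n + T') < 2 := Nat.mod_lt _ (by norm_num)
  omega

theorem infinite_line : {z : ℤ × ℤ | lineF 3 4 (17 / 4) z.1 = z.2}.Infinite := by
  apply Set.infinite_of_injective_forall_mem (f := fun n : ℕ => ((17 + 4 * n : ℤ), (17 + 3 * n : ℤ)))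
  · intro a b h
    simp only [Prod.mk.injEq] at h
    omega
  · intro n
    simp only [Set.mem_ofPred_eq]
    unfold lineF
    push_cast
    ring

/-- **There is a finite two-dimensional ruleset that is not eventually periodic.** -/
theorem result : ∃ S : Finset (ℕ × ℕ), (0, 0) ∉ S ∧ ¬ EventuallyPeriodic S := by
  refine ⟨S, zero_notMem, fun h => ?_⟩
  exact not_periodic_line (h 3 4 (by norm_num) (by norm_num) (17 / 4) infinite_line)

end Pool.Agent.Results.MP_1f0dde_co.NotEventuallyPeriodic
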